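import Mathlib
import Pool.Agent.Helper152.SamI
import Pool.Agent.Helper152.SamK

open MeasureTheory
open scoped ENNReal

namespace Pool.Agent.Results.MP_b99895_an.NotLattice

open Pool.Agent.Helper152.Sam

noncomputable section

/-! ## Definitions -/

/-- exponents in `[1,∞)` -/
abbrev Expo : Type := {x : ℝ // 1 ≤ x}

instance instFact (p : Expo) : Fact (1 ≤ ENNReal.ofReal p.1) :=
  ⟨ENNReal.one_le_ofReal.2 p.2⟩

/-- the real space `L^p[0,1]`; here `mu` is Lebesgue measure restricted to `[0,1]` -/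
abbrev LL (p : Expo) : Type := Lp ℝ (ENNReal.ofReal p.1) mu

/-- the supremum over the unit ball of the dual of `(∑ |φ(x_k)|^r)^(1/r)` -/
def weak (r : ℝ) {X : Type} [NormedAddCommGroup X] [NormedSpace ℝ X] {n : ℕ}
    (x : Fin n → X) : ℝ :=
  ⨆ φ : {φ : X →L[ℝ] ℝ // ‖φ‖ ≤ 1}, (∑ k, |φ.1 (x k)| ^ r) ^ (1 / r)

/-- `C` is an admissible constant in the definition of `r`-absolutely summing operators -/
def IsBound (r : ℝ) {X Y : Type} [NormedAddCommGroup X] [NormedSpace ℝ X]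
    [NormedAddCommGroup Y] [NormedSpace ℝ Y] (T : X →L[ℝ] Y) (C : ℝ) : Prop :=
  0 ≤ C ∧ ∀ (n : ℕ) (x : Fin n → X), (∑ k, ‖T (x k)‖ ^ r) ^ (1 / r) ≤ C * weak r x

/-- `T` is `r`-absolutely summing -/
def Summing (r : ℝ) {X Y : Type} [NormedAddCommGroup X] [NormedSpace ℝ X]
    [NormedAddCommGroup Y] [NormedSpace ℝ Y] (T : X →L[ℝ] Y) : Prop :=
  ∃ C, IsBound r T C

/-- the `r`-summing norm -/
def piNorm (r : ℝ) {X Y : Type} [NormedAddCommGroup X] [NormedSpace ℝ X]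
    [NormedAddCommGroup Y] [NormedSpace ℝ Y] (T : X →L[ℝ] Y) : ℝ :=
  sInf {C | IsBound r T C}

/-- the order on operators: `T - S` is positive -/
def OpLE {p q : Expo} (S T : LL p →L[ℝ] LL q) : Prop :=
  ∀ f : LL p, 0 ≤ f → S f ≤ T f

/-- regular operators are the differences of two positive operators -/
def Regular {p q : Expo} (U : LL p →L[ℝ] LL q) : Prop :=
  ∃ A B : LL p →L[ℝ] LL q, OpLE 0 A ∧ OpLE 0 B ∧ U = A - B

/-- `M` is the modulus of `U`: the supremum of `U` and `-U` in the regular operators -/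
def IsModulus {p q : Expo} (U M : LL p →L[ℝ] LL q) : Prop :=
  Regular M ∧ OpLE U M ∧ OpLE (-U) M ∧
    ∀ N : LL p →L[ℝ] LL q, Regular N → OpLE U N → OpLE (-U) N → OpLE M N

/-- the statement `S(p,q)` of the problem (for the fixed exponent `r`) -/
def S (r : ℝ) (p q : Expo) : Prop :=
  (∀ U : LL p →L[ℝ] LL q, Summing r U → Regular U ∧ ∃ M, IsModulus U M ∧ Summing r M) ∧
  ∃ C : ℝ, ∀ U V MU MV : LL p →L[ℝ] LL q, Summing r U → Summing r V →
    IsModulus U MU → IsModulus V MV → OpLE MV MU → piNorm r V ≤ C * piNorm r U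

/-! ## General facts on summing operators -/

section general

variable {X Y : Type} [NormedAddCommGroup X] [NormedSpace ℝ X]
  [NormedAddCommGroup Y] [NormedSpace ℝ Y]

theorem weak_bdd {r : ℝ} (hr : 0 < r) {n : ℕ} (x : Fin n → X) :
    BddAbove (Set.range fun φ : {φ : X →L[ℝ] ℝ // ‖φ‖ ≤ 1} =>
      (∑ k, |φ.1 (x k)| ^ r) ^ (1 / r)) := by
  refine ⟨(∑ k, ‖x k‖ ^ r) ^ (1 / r), ?_⟩
  rintro _ ⟨φ, rfl⟩
  apply Real.rpow_le_rpow (by positivity) _ (by positivity)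
  refine Finset.sum_le_sum fun k _ => ?_
  apply Real.rpow_le_rpow (abs_nonneg _) _ hr.le
  have := φ.1.le_opNorm (x k)
  rw [Real.norm_eq_abs] at this
  refine this.trans ?_
  exact mul_le_of_le_one_left (norm_nonneg _) φ.2

theorem weak_nonneg {r : ℝ} {n : ℕ} (x : Fin n → X) : 0 ≤ weak r x := by
  unfold weak
  apply Real.iSup_nonneg
  intro φ
  positivity

theorem weak_le {r : ℝ} {n : ℕ} (x : Fin n → X) {w : ℝ}
    (h : ∀ φ : X →L[ℝ] ℝ, ‖φ‖ ≤ 1 → (∑ k, |φ (x k)| ^ r) ^ (1 / r) ≤ w) : weak r x ≤ w := by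
  unfold weak
  have : Nonempty {φ : X →L[ℝ] ℝ // ‖φ‖ ≤ 1} := ⟨⟨0, by simp⟩⟩
  exact ciSup_le fun φ => h φ.1 φ.2

theorem sum_le_weak {r : ℝ} (hr : 0 < r) {n : ℕ} (x : Fin n → X) (φ : X →L[ℝ] ℝ) {c : ℝ}
    (hφ : ‖φ‖ ≤ c) : ∑ k, |φ (x k)| ^ r ≤ (c * weak r x) ^ r := by
  have hc : 0 ≤ c := (norm_nonneg _).trans hφ
  rcases hc.eq_or_lt with h0 | h0
  · have hφ0 : φ = 0 := by
      rw [← norm_le_zero_iff]; rw [h0]; exact hφ
    rw [← h0, hφ0]
    simp [hr.ne']
  · have h1 : ‖c⁻¹ • φ‖ ≤ 1 := by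
      rw [norm_smul, Real.norm_eq_abs, abs_of_pos (inv_pos.2 h0), inv_mul_le_iff₀ h0]
      linarith
    have h2 : (∑ k, |(c⁻¹ • φ) (x k)| ^ r) ^ (1 / r) ≤ weak r x :=
      le_ciSup (weak_bdd hr x) ⟨c⁻¹ • φ, h1⟩
    have h3 : ∀ k, |(c⁻¹ • φ) (x k)| ^ r = (c⁻¹) ^ r * |φ (x k)| ^ r := by
      intro k
      rw [_root_.smul_apply, smul_eq_mul, abs_mul, abs_of_pos (inv_pos.2 h0),
        Real.mul_rpow (by positivity) (abs_nonneg _)]
    simp_rw [h3] at h2
    rw [← Finset.mul_sum] at h2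
    have h4 := Real.rpow_le_rpow (by positivity) h2 hr.le
    rw [← Real.rpow_mul (by positivity), one_div_mul_cancel hr.ne', Real.rpow_one,
      Real.inv_rpow h0.le, inv_mul_le_iff₀ (by positivity)] at h4
    rw [Real.mul_rpow h0.le (weak_nonneg x)]
    exact h4

theorem bound_of_dom {r : ℝ} (hr : 0 < r) (T : X →L[ℝ] Y) {L : Type} [Fintype L]
    (ψ : L → X →L[ℝ] ℝ) (c : L → ℝ) (hc : ∀ l, ‖ψ l‖ ≤ c l)
    (h : ∀ x, ‖T x‖ ^ r ≤ ∑ l, |ψ l x| ^ r) : IsBound r T ((∑ l, c l ^ r) ^ (1 / r)) := by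
  have hc0 : ∀ l, 0 ≤ c l := fun l => (norm_nonneg _).trans (hc l)
  have hS : 0 ≤ ∑ l, c l ^ r := Finset.sum_nonneg fun l _ => Real.rpow_nonneg (hc0 l) _
  refine ⟨by positivity, fun n x => ?_⟩
  have h1 : ∑ k, ‖T (x k)‖ ^ r ≤ (∑ l, c l ^ r) * weak r x ^ r := by
    calc ∑ k, ‖T (x k)‖ ^ r ≤ ∑ k, ∑ l, |ψ l (x k)| ^ r := Finset.sum_le_sum fun k _ => h _
      _ = ∑ l, ∑ k, |ψ l (x k)| ^ r := Finset.sum_comm
      _ ≤ ∑ l, (c l * weak r x) ^ r := Finset.sum_le_sum fun l _ => sum_le_weak hr x _ (hc l)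
      _ = (∑ l, c l ^ r) * weak r x ^ r := by
        rw [Finset.sum_mul]
        refine Finset.sum_congr rfl fun l _ => ?_
        rw [Real.mul_rpow (hc0 l) (weak_nonneg x)]
  have h2 := Real.rpow_le_rpow (by positivity) h1 (by positivity : 0 ≤ 1 / r)
  refine h2.trans (le_of_eq ?_)
  have hw := weak_nonneg (r := r) x
  rw [Real.mul_rpow hS (by positivity), ← Real.rpow_mul hw, mul_one_div_cancel hr.ne',
    Real.rpow_one]

theorem summing_of_finite {r : ℝ} (hr : 1 ≤ r) (T : X →L[ℝ] Y) {A : Type} [Fintype A]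
    (ψ : A → X →L[ℝ] ℝ) (m : A → ℝ) (hm : ∀ a, 0 ≤ m a)
    (h : ∀ x, ‖T x‖ ≤ ∑ a, m a * |ψ a x|) : Summing r T := by
  have hr0 : 0 < r := by linarith
  refine ⟨∑ a, m a * ‖ψ a‖, Finset.sum_nonneg fun a _ => mul_nonneg (hm a) (norm_nonneg _),
    fun n x => ?_⟩
  calc (∑ k, ‖T (x k)‖ ^ r) ^ (1 / r) ≤ (∑ k, (∑ a, m a * |ψ a (x k)|) ^ r) ^ (1 / r) := by
        apply Real.rpow_le_rpow (by positivity) _ (by positivity)
        refine Finset.sum_le_sum fun k _ => ?_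
        exact Real.rpow_le_rpow (norm_nonneg _) (h _) hr0.le
    _ ≤ ∑ a, (∑ k, (m a * |ψ a (x k)|) ^ r) ^ (1 / r) :=
        lp_sum_le r hr Finset.univ (fun a (k : Fin n) => m a * |ψ a (x k)|)
          (fun a k => mul_nonneg (hm a) (abs_nonneg _))
    _ ≤ ∑ a, (m a * ‖ψ a‖) * weak r x := by
        refine Finset.sum_le_sum fun a _ => ?_
        have h1 : ∑ k, (m a * |ψ a (x k)|) ^ r ≤ ((m a * ‖ψ a‖) * weak r x) ^ r := by
          have h2 := sum_le_weak hr0 x (ψ a) le_rfl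
          have h3 : ∀ k, (m a * |ψ a (x k)|) ^ r = m a ^ r * |ψ a (x k)| ^ r :=
            fun k => Real.mul_rpow (hm a) (abs_nonneg _)
          simp_rw [h3]
          rw [← Finset.mul_sum, mul_assoc, Real.mul_rpow (hm a)
            (mul_nonneg (norm_nonneg _) (weak_nonneg x))]
          exact mul_le_mul_of_nonneg_left h2 (Real.rpow_nonneg (hm a) _)
        have hS : 0 ≤ ∑ k, (m a * |ψ a (x k)|) ^ r := Finset.sum_nonneg fun k _ =>
          Real.rpow_nonneg (mul_nonneg (hm a) (abs_nonneg _)) _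
        have h4 := Real.rpow_le_rpow hS h1 (by positivity : 0 ≤ 1 / r)
        have h5 : 0 ≤ (m a * ‖ψ a‖) * weak r x :=
          mul_nonneg (mul_nonneg (hm a) (norm_nonneg _)) (weak_nonneg x)
        rwa [← Real.rpow_mul h5, mul_one_div_cancel hr0.ne', Real.rpow_one] at h4
    _ = (∑ a, m a * ‖ψ a‖) * weak r x := by rw [Finset.sum_mul]

theorem piNorm_le {r : ℝ} {T : X →L[ℝ] Y} {C : ℝ} (h : IsBound r T C) : piNorm r T ≤ C :=
  csInf_le ⟨0, fun _ hc => hc.1⟩ h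

theorem le_piNorm {r : ℝ} {T : X →L[ℝ] Y} {c : ℝ} (hT : Summing r T)
    (h : ∀ C, IsBound r T C → c ≤ C) : c ≤ piNorm r T :=
  le_csInf hT fun C hC => h C hC

end general

/-! ## The operators attached to a finite configuration -/

theorem sum_rpow_le {I : Type} [Fintype I] (z : I → ℝ) (hz : ∀ i, 0 ≤ z i) {t : ℝ} (ht : 1 ≤ t) :
    ∑ i, z i ^ t ≤ (∑ i, z i) ^ t := by
  have hS : 0 ≤ ∑ i, z i := Finset.sum_nonneg fun i _ => hz i
  have h1 : ∀ i, z i ^ t ≤ z i * (∑ i, z i) ^ (t - 1) := by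
    intro i
    have h2 : z i ^ t = z i * z i ^ (t - 1) := by
      rcases (hz i).eq_or_lt with h | h
      · rw [← h, Real.zero_rpow (by linarith)]; ring
      · nth_rewrite 2 [← Real.rpow_one (z i)]
        rw [← Real.rpow_add h]; congr 1; ring
    rw [h2]
    apply mul_le_mul_of_nonneg_left _ (hz i)
    apply Real.rpow_le_rpow (hz i) _ (by linarith)
    exact Finset.single_le_sum (fun i _ => hz i) (Finset.mem_univ i)
  refine (Finset.sum_le_sum fun i _ => h1 i).trans ?_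
  rw [← Finset.sum_mul]
  rcases hS.eq_or_lt with h | h
  · rw [← h, zero_mul]; exact Real.rpow_nonneg le_rfl _
  · nth_rewrite 1 [← Real.rpow_one (∑ i, z i)]
    rw [← Real.rpow_add h]
    apply le_of_eq; congr 1; ring

/-- the matrix with random signs -/
def Ks {A I : Type} (f : I → A → ℝ) (ρ : I × (A → Bool)) (a : A) : ℝ := sg (ρ.2 a) * f ρ.1 a

theorem abs_Ks {A I : Type} (f : I → A → ℝ) (hf : ∀ i a, 0 ≤ f i a) (ρ : I × (A → Bool)) (a : A) :
    |Ks f ρ a| = f ρ.1 a := by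
  rw [Ks, abs_mul, abs_sg, one_mul, abs_of_nonneg (hf _ _)]

section ops

variable {A I J L : Type} [Fintype A] [Fintype I] [Fintype J] [Fintype L] [DecidableEq A]

/-- the Khintchine constant used below -/
def Bk (r : ℝ) : ℝ := r ^ r * (2 * Real.exp (1 / 2))

theorem Bk_pos {r : ℝ} (hr : 0 < r) : 0 < Bk r := by unfold Bk; positivity

theorem sign_compare {r : ℝ} (hr : 2 ≤ r) {f : I → A → ℝ} {G : L → A → ℝ}
    (hP : PBound (r / 2) (fun i a => f i a ^ 2) (fun l a => G l a ^ 2)) (x : A → ℝ) :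
    ∑ ρ : I × (A → Bool), |∑ a, Ks f ρ a * x a| ^ r ≤
      Bk r * ∑ l : L × (A → Bool), |∑ a, sg (l.2 a) * G l.1 a * x a| ^ r := by
  have hr0 : 0 < r := by linarith
  rw [Fintype.sum_prod_type, Fintype.sum_prod_type]
  have h1 : ∀ i, ∑ e : A → Bool, |∑ a, Ks f (i, e) a * x a| ^ r ≤
      Bk r * (2 ^ Fintype.card A * (∑ a, f i a ^ 2 * x a ^ 2) ^ (r / 2)) := by
    intro i
    have := khin_upper hr0 (fun a => f i a * x a)
    simp only [mul_pow] at this
    refine le_trans (le_of_eq ?_) this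
    refine Finset.sum_congr rfl fun e _ => ?_
    congr 2
    refine Finset.sum_congr rfl fun a _ => ?_
    simp only [Ks]; ring
  have h2 : ∀ l, 2 ^ Fintype.card A * (∑ a, G l a ^ 2 * x a ^ 2) ^ (r / 2) ≤
      ∑ e : A → Bool, |∑ a, sg (e a) * G l a * x a| ^ r := by
    intro l
    have := khin_lower hr (fun a => G l a * x a)
    simp only [mul_pow] at this
    refine this.trans (le_of_eq ?_)
    refine Finset.sum_congr rfl fun e _ => ?_
    congr 2
    refine Finset.sum_congr rfl fun a _ => ?_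
    ring
  have h3 := hP (fun a => x a ^ 2) (fun a => sq_nonneg _)
  have hB := Bk_pos hr0
  calc ∑ i, ∑ e : A → Bool, |∑ a, Ks f (i, e) a * x a| ^ r
      ≤ ∑ i, Bk r * (2 ^ Fintype.card A * (∑ a, f i a ^ 2 * x a ^ 2) ^ (r / 2)) :=
        Finset.sum_le_sum fun i _ => h1 i
    _ = Bk r * (2 ^ Fintype.card A * ∑ i, (∑ a, f i a ^ 2 * x a ^ 2) ^ (r / 2)) := by
        rw [Finset.mul_sum, Finset.mul_sum]
    _ ≤ Bk r * (2 ^ Fintype.card A * ∑ l, (∑ a, G l a ^ 2 * x a ^ 2) ^ (r / 2)) := by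
        gcongr
    _ = Bk r * ∑ l, 2 ^ Fintype.card A * (∑ a, G l a ^ 2 * x a ^ 2) ^ (r / 2) := by
        rw [Finset.mul_sum Finset.univ (fun l => (∑ a, G l a ^ 2 * x a ^ 2) ^ (r / 2))]
    _ ≤ Bk r * ∑ l, ∑ e : A → Bool, |∑ a, sg (e a) * G l a * x a| ^ r := by
        gcongr with l _
        exact h2 l

theorem upper_bound [Nonempty A] [Nonempty I] {r s p q : ℝ} (hr : 2 < r) (hq : 1 ≤ q) (hqr : q ≤ r)
    (h : p.HolderConjugate s) [Fact (1 ≤ ENNReal.ofReal p)] [Fact (1 ≤ ENNReal.ofReal q)]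
    (c : Cell A) (d : Cell (I × (A → Bool))) {f : I → A → ℝ} {G : L → A → ℝ}
    (hG : ∀ l a, 0 ≤ G l a)
    (hP : PBound (r / 2) (fun i a => f i a ^ 2) (fun l a => G l a ^ 2)) :
    ∃ C, IsBound r (opK c d h (ENNReal.ofReal q) (Ks f)) C ∧
      C ^ r = Bk r * (Fintype.card I : ℝ)⁻¹ * (((Fintype.card A : ℝ)⁻¹) ^ (r / s) *
        ∑ l, (∑ a, G l a ^ s) ^ (r / s)) := by
  have hr0 : 0 < r := by linarith
  have hs0 : 0 < s := h.symm.pos
  have hq0 : 0 < q := by linarith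
  have hB := Bk_pos hr0
  set NR : ℝ := (Fintype.card (I × (A → Bool)) : ℝ) with hNR
  have hNR0 : 0 < NR := by rw [hNR]; exact_mod_cast Fintype.card_pos
  set NA : ℝ := (Fintype.card A : ℝ) with hNA
  have hNA0 : 0 < NA := by rw [hNA]; exact_mod_cast Fintype.card_pos
  set NI : ℝ := (Fintype.card I : ℝ) with hNI
  have hNI0 : 0 < NI := by rw [hNI]; exact_mod_cast Fintype.card_pos
  have hNR' : NR = NI * 2 ^ Fintype.card A := by
    rw [hNR, hNI]; simp
  set b : ℝ := (Bk r / NR) ^ (1 / r) with hb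
  have hb0 : 0 ≤ b := by positivity
  have hbr : b ^ r = Bk r / NR := by
    rw [hb, ← Real.rpow_mul (by positivity), one_div_mul_cancel hr0.ne', Real.rpow_one]
  set gv : L × (A → Bool) → A → ℝ := fun l a => sg (l.2 a) * G l.1 a with hgv
  have habs : ∀ l a, |gv l a| = G l.1 a := by
    intro l a
    simp only [hgv]
    rw [abs_mul, abs_sg, one_mul, abs_of_nonneg (hG _ _)]
  set ψ : L × (A → Bool) → (Lp ℝ (ENNReal.ofReal p) mu →L[ℝ] ℝ) := fun l => b • c.fn h (gv l)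
    with hψ
  set cc : L × (A → Bool) → ℝ := fun l => b * (NA⁻¹ * ∑ a, G l.1 a ^ s) ^ (1 / s) with hcc
  have hsum0 : ∀ l, 0 ≤ ∑ a, G l a ^ s := fun l =>
    Finset.sum_nonneg fun a _ => Real.rpow_nonneg (hG _ _) _
  have h1 : ∀ l, ‖ψ l‖ ≤ cc l := by
    intro l
    simp only [hψ, hcc]
    rw [norm_smul, Real.norm_eq_abs, abs_of_nonneg hb0]
    apply mul_le_mul_of_nonneg_left _ hb0
    have := c.norm_fn_le h (gv l)
    simp_rw [habs] at this
    exact this
  have h2 : ∀ x, ‖opK c d h (ENNReal.ofReal q) (Ks f) x‖ ^ r ≤ ∑ l, |ψ l x| ^ r := by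
    intro x
    rw [norm_opK c d h hq0, ← hNR]
    have hmean : (NR⁻¹ * ∑ ρ, |∑ a, Ks f ρ a * c.co h a x| ^ q) ^ (r / q) ≤
        NR⁻¹ * ∑ ρ, |∑ a, Ks f ρ a * c.co h a x| ^ r := by
      have := Real.rpow_arith_mean_le_arith_mean_rpow (Finset.univ : Finset (I × (A → Bool)))
        (fun _ => NR⁻¹) (fun ρ => |∑ a, Ks f ρ a * c.co h a x| ^ q) (fun _ _ => by positivity)
        (by simp only [Finset.sum_const, Finset.card_univ, nsmul_eq_mul]; rw [← hNR]; field_simp)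
        (fun _ _ => by positivity) (p := r / q) (by rw [le_div_iff₀ hq0]; linarith)
      rw [← Finset.mul_sum, ← Finset.mul_sum] at this
      refine this.trans (le_of_eq ?_)
      congr 1
      refine Finset.sum_congr rfl fun ρ _ => ?_
      rw [← Real.rpow_mul (abs_nonneg _)]
      congr 1
      field_simp
    have e1 : ((NR⁻¹ * ∑ ρ, |∑ a, Ks f ρ a * c.co h a x| ^ q) ^ (1 / q)) ^ r
        = (NR⁻¹ * ∑ ρ, |∑ a, Ks f ρ a * c.co h a x| ^ q) ^ (r / q) := by
      rw [← Real.rpow_mul (by positivity)]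
      congr 1
      field_simp
    rw [e1]
    refine hmean.trans ?_
    have h3 := sign_compare (I := I) (L := L) hr.le hP (fun a => c.co h a x)
    have h4 : ∀ l, |ψ l x| ^ r = Bk r / NR * |∑ a, sg (l.2 a) * G l.1 a * c.co h a x| ^ r := by
      intro l
      simp only [hψ]
      rw [_root_.smul_apply, smul_eq_mul, abs_mul, abs_of_nonneg hb0,
        Real.mul_rpow hb0 (abs_nonneg _), hbr, c.fn_eq_sum]
    simp_rw [h4]
    rw [← Finset.mul_sum]
    calc NR⁻¹ * ∑ ρ, |∑ a, Ks f ρ a * c.co h a x| ^ r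
        ≤ NR⁻¹ * (Bk r * ∑ l : L × (A → Bool), |∑ a, sg (l.2 a) * G l.1 a * c.co h a x| ^ r) := by
          gcongr
      _ = _ := by ring
  refine ⟨_, bound_of_dom hr0 _ ψ cc h1 h2, ?_⟩
  have hcc0 : ∀ l, 0 ≤ cc l := fun l => (norm_nonneg _).trans (h1 l)
  rw [← Real.rpow_mul (Finset.sum_nonneg fun l _ => Real.rpow_nonneg (hcc0 l) _),
    one_div_mul_cancel hr0.ne', Real.rpow_one]
  have h5 : ∀ l : L × (A → Bool), cc l ^ r =
      Bk r / NR * ((NA⁻¹) ^ (r / s) * (∑ a, G l.1 a ^ s) ^ (r / s)) := by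
    intro l
    simp only [hcc]
    have h6 : 0 ≤ NA⁻¹ * ∑ a, G l.1 a ^ s := mul_nonneg (by positivity) (hsum0 _)
    rw [Real.mul_rpow hb0 (Real.rpow_nonneg h6 _), hbr, ← Real.rpow_mul h6,
      ← Real.mul_rpow (by positivity) (hsum0 _)]
    congr 2
    field_simp
  simp_rw [h5]
  rw [Fintype.sum_prod_type]
  simp only [Finset.sum_const, Finset.card_univ, nsmul_eq_mul]
  rw [← Finset.mul_sum, ← Finset.mul_sum, ← Finset.mul_sum, hNR']
  have hcardb : ((Fintype.card (A → Bool) : ℕ) : ℝ) = 2 ^ Fintype.card A := by simp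
  rw [hcardb]
  field_simp

omit [DecidableEq A] in
/-- the dual norm of the span of the normalised pieces -/
theorem dual_bound [Nonempty A] {p s : ℝ} (h : p.HolderConjugate s)
    [Fact (1 ≤ ENNReal.ofReal p)] (c : Cell A) (φ : Lp ℝ (ENNReal.ofReal p) mu →L[ℝ] ℝ)
    (hφ : ‖φ‖ ≤ 1) (b : A → ℝ) (hb : ∀ y : A → ℝ, φ (c.st _ y) = ∑ a, y a * b a) :
    (∑ a, |b a| ^ s) ^ (1 / s) ≤ ((Fintype.card A : ℝ)⁻¹) ^ (1 / p) := by
  have hs1 : 1 < s := h.symm.lt
  have hs0 : 0 < s := h.symm.pos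
  have hp0 : 0 < p := h.pos
  set NA : ℝ := (Fintype.card A : ℝ) with hNA
  have hNA0 : 0 < NA := by rw [hNA]; exact_mod_cast Fintype.card_pos
  set Sm := ∑ a, |b a| ^ s with hSm
  have hS0 : 0 ≤ Sm := by positivity
  rcases hS0.eq_or_lt with h0 | h0
  · rw [← h0, Real.zero_rpow (by positivity)]; positivity
  · set y : A → ℝ := fun a => SignType.sign (b a) * |b a| ^ (s - 1) with hy
    have e1 : ∀ a, y a * b a = |b a| ^ s := by
      intro a
      simp only [hy]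
      have : (SignType.sign (b a) : ℝ) * |b a| ^ (s - 1) * b a
          = |b a| ^ (s - 1) * ((SignType.sign (b a) : ℝ) * b a) := by ring
      rw [this, sign_mul_self]
      rcases eq_or_ne (b a) 0 with hz | hz
      · rw [hz, abs_zero, Real.zero_rpow hs0.ne']; simp
      · have hpos : 0 < |b a| := abs_pos.2 hz
        nth_rewrite 2 [← Real.rpow_one |b a|]
        rw [← Real.rpow_add hpos]; congr 1; ring
    have e2 : ∀ a, |y a| ^ p = |b a| ^ s := by
      intro a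
      simp only [hy]
      rcases eq_or_ne (b a) 0 with hz | hz
      · rw [hz]; simp [Real.zero_rpow hs0.ne', Real.zero_rpow hp0.ne']
      · have hpos : 0 < |b a| := abs_pos.2 hz
        have hsg : |((SignType.sign (b a) : SignType) : ℝ)| = 1 := by
          rcases lt_or_gt_of_ne hz with hl | hl
          · rw [sign_neg hl]; simp
          · rw [sign_pos hl]; simp
        rw [abs_mul, hsg, one_mul, abs_of_nonneg (by positivity), ← Real.rpow_mul hpos.le]
        congr 1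
        have := h.symm.sub_one_mul_conj
        linarith
    have h1 : φ (c.st _ y) ≤ ‖c.st (ENNReal.ofReal p) y‖ := by
      refine (le_abs_self _).trans ?_
      have := φ.le_opNorm (c.st (ENNReal.ofReal p) y)
      rw [Real.norm_eq_abs] at this
      exact this.trans (mul_le_of_le_one_left (norm_nonneg _) hφ)
    rw [hb, c.norm_st hp0] at h1
    simp_rw [e1, e2] at h1
    rw [← hSm, ← hNA, Real.mul_rpow (by positivity) hS0] at h1
    have h2 : Sm = Sm ^ (1 / s) * Sm ^ (1 / p) := by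
      rw [← Real.rpow_add h0]
      have : 1 / s + 1 / p = 1 := by
        have := h.symm.inv_add_inv_eq_one
        rw [one_div, one_div]; exact this
      rw [this, Real.rpow_one]
    have h3 : 0 < Sm ^ (1 / p) := by positivity
    have h4 : Sm ^ (1 / s) * Sm ^ (1 / p) ≤ (NA⁻¹) ^ (1 / p) * Sm ^ (1 / p) := by
      rw [← h2]; exact h1
    exact le_of_mul_le_mul_right h4 h3

theorem lower_bound [Nonempty A] [Nonempty I] {r s p q : ℝ} (hr : 2 < r) (hq : 1 ≤ q)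
    (hqr : q ≤ r) (h : p.HolderConjugate s) [Fact (1 ≤ ENNReal.ofReal p)]
    [Fact (1 ≤ ENNReal.ofReal q)] (c : Cell A) (d : Cell (I × (A → Bool))) {f : I → A → ℝ}
    {v : J → A → ℝ} (hW : WBound r s v) {C : ℝ}
    (hC : IsBound r (opK c d h (ENNReal.ofReal q) (fun ρ a => f ρ.1 a)) C) :
    ((Fintype.card A : ℝ)⁻¹) ^ (r / s) * ((Fintype.card I : ℝ)⁻¹) ^ (r / q) *
      ∑ i, ∑ j, |∑ a, f i a * v j a| ^ r ≤ C ^ r := by
  have hr0 : 0 < r := by linarith
  have hs0 : 0 < s := h.symm.pos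
  have hp0 : 0 < p := h.pos
  have hq0 : 0 < q := by linarith
  set NA : ℝ := (Fintype.card A : ℝ) with hNA
  have hNA0 : 0 < NA := by rw [hNA]; exact_mod_cast Fintype.card_pos
  set NI : ℝ := (Fintype.card I : ℝ) with hNI
  have hNI0 : 0 < NI := by rw [hNI]; exact_mod_cast Fintype.card_pos
  set e := Fintype.equivFin J with he
  set x : Fin (Fintype.card J) → Lp ℝ (ENNReal.ofReal p) mu := fun k => c.st _ (v (e.symm k))
    with hx
  have hweak : weak r x ≤ (NA⁻¹) ^ (1 / p) := by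
    apply weak_le
    intro φ hφ
    set b : A → ℝ := fun a => φ (c.st _ (fun a' => if a = a' then 1 else 0)) with hb
    have hlin : ∀ y : A → ℝ, φ (c.st _ y) = ∑ a, y a * b a := by
      intro y
      have := LinearMap.pi_apply_eq_sum_univ (φ.toLinearMap.comp (c.st (ENNReal.ofReal p))) y
      simpa [hb] using this
    have h1 := dual_bound h c φ hφ b hlin
    have h2 := hW b
    have h3 : ∑ k, |φ (x k)| ^ r = ∑ j, |∑ a, v j a * b a| ^ r := by
      simp only [hx, hlin]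
      exact Equiv.sum_comp e.symm (fun j => |∑ a, v j a * b a| ^ r)
    rw [h3]
    have h4 : (∑ a, |b a| ^ s) ^ (r / s) = ((∑ a, |b a| ^ s) ^ (1 / s)) ^ r := by
      rw [← Real.rpow_mul (by positivity)]; congr 1; field_simp
    rw [h4] at h2
    have h5 := Real.rpow_le_rpow (by positivity) h2 (by positivity : 0 ≤ 1 / r)
    rw [← Real.rpow_mul (by positivity), mul_one_div_cancel hr0.ne', Real.rpow_one] at h5
    exact h5.trans h1
  have hb := hC.2 _ x
  have hC0 := hC.1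
  have h6 : (∑ k, ‖opK c d h (ENNReal.ofReal q) (fun ρ a => f ρ.1 a) (x k)‖ ^ r) ^ (1 / r) ≤
      C * (NA⁻¹) ^ (1 / p) := hb.trans (mul_le_mul_of_nonneg_left hweak hC0)
  have h7 := Real.rpow_le_rpow (by positivity) h6 hr0.le
  rw [← Real.rpow_mul (by positivity), one_div_mul_cancel hr0.ne', Real.rpow_one,
    Real.mul_rpow hC0 (by positivity), ← Real.rpow_mul (by positivity)] at h7
  -- the norms of the images
  have h8 : ∀ j, NA⁻¹ ^ r * (NI⁻¹ ^ (r / q) * ∑ i, |∑ a, f i a * v j a| ^ r) ≤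
      ‖opK c d h (ENNReal.ofReal q) (fun ρ a => f ρ.1 a) (c.st _ (v j))‖ ^ r := by
    intro j
    rw [norm_opK c d h hq0, ← Real.rpow_mul (by positivity)]
    have e1 : 1 / q * r = r / q := by ring
    rw [e1]
    have e2 : ∀ ρ : I × (A → Bool), ∑ a, f ρ.1 a * c.co h a (c.st _ (v j))
        = NA⁻¹ * ∑ a, f ρ.1 a * v j a := by
      intro ρ
      rw [Finset.mul_sum]
      refine Finset.sum_congr rfl fun a _ => ?_
      rw [c.co_st]; ring
    simp_rw [e2]
    have e3 : ∑ ρ : I × (A → Bool), |NA⁻¹ * ∑ a, f ρ.1 a * v j a| ^ q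
        = 2 ^ Fintype.card A * ∑ i, |NA⁻¹ * ∑ a, f i a * v j a| ^ q := by
      rw [Fintype.sum_prod_type, Finset.mul_sum]
      refine Finset.sum_congr rfl fun i _ => ?_
      simp only [Finset.sum_const, Finset.card_univ, nsmul_eq_mul]
      congr 1
      simp
    rw [e3]
    have e4 : (Fintype.card (I × (A → Bool)) : ℝ)⁻¹ * (2 ^ Fintype.card A *
        ∑ i, |NA⁻¹ * ∑ a, f i a * v j a| ^ q) = NI⁻¹ * ∑ i, |NA⁻¹ * ∑ a, f i a * v j a| ^ q := by
      have : (Fintype.card (I × (A → Bool)) : ℝ) = NI * 2 ^ Fintype.card A := by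
        rw [hNI]; simp
      rw [this]
      field_simp
    rw [e4, Real.mul_rpow (by positivity) (by positivity)]
    have e5 : ∑ i, |NA⁻¹ * ∑ a, f i a * v j a| ^ r ≤
        (∑ i, |NA⁻¹ * ∑ a, f i a * v j a| ^ q) ^ (r / q) := by
      have := sum_rpow_le (fun i => |NA⁻¹ * ∑ a, f i a * v j a| ^ q) (fun i => by positivity)
        (t := r / q) (by rw [le_div_iff₀ hq0]; linarith)
      refine le_trans (le_of_eq ?_) this
      refine Finset.sum_congr rfl fun i _ => ?_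
      rw [← Real.rpow_mul (abs_nonneg _)]
      congr 1
      field_simp
    have e6 : ∑ i, |NA⁻¹ * ∑ a, f i a * v j a| ^ r = NA⁻¹ ^ r * ∑ i, |∑ a, f i a * v j a| ^ r := by
      rw [Finset.mul_sum]
      refine Finset.sum_congr rfl fun i _ => ?_
      rw [abs_mul, abs_of_pos (inv_pos.2 hNA0), Real.mul_rpow (by positivity) (abs_nonneg _)]
    rw [e6] at e5
    calc NA⁻¹ ^ r * (NI⁻¹ ^ (r / q) * ∑ i, |∑ a, f i a * v j a| ^ r)
        = NI⁻¹ ^ (r / q) * (NA⁻¹ ^ r * ∑ i, |∑ a, f i a * v j a| ^ r) := by ring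
      _ ≤ _ := by gcongr
  have h9 : NA⁻¹ ^ r * (NI⁻¹ ^ (r / q) * ∑ i, ∑ j, |∑ a, f i a * v j a| ^ r) ≤
      ∑ k, ‖opK c d h (ENNReal.ofReal q) (fun ρ a => f ρ.1 a) (x k)‖ ^ r := by
    have e7 : ∑ k, ‖opK c d h (ENNReal.ofReal q) (fun ρ a => f ρ.1 a) (x k)‖ ^ r =
        ∑ j, ‖opK c d h (ENNReal.ofReal q) (fun ρ a => f ρ.1 a) (c.st _ (v j))‖ ^ r :=
      Equiv.sum_comp e.symm
        (fun j => ‖opK c d h (ENNReal.ofReal q) (fun ρ a => f ρ.1 a) (c.st _ (v j))‖ ^ r)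
    rw [e7]
    refine le_trans (le_of_eq ?_) (Finset.sum_le_sum fun j _ => h8 j)
    rw [← Finset.mul_sum, ← Finset.mul_sum, Finset.sum_comm]
  have h10 := h9.trans h7
  have h11 : NA⁻¹ ^ (r / s) = NA⁻¹ ^ r * (NA⁻¹ ^ (1 / p * r))⁻¹ := by
    rw [← Real.rpow_neg (by positivity), ← Real.rpow_add (by positivity)]
    congr 1
    have := h.inv_add_inv_eq_one
    have h12 : s⁻¹ = 1 - p⁻¹ := by linarith
    rw [div_eq_mul_inv, h12, one_div]; ring
  rw [h11]
  have h13 : 0 < NA⁻¹ ^ (1 / p * r) := by positivity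
  calc NA⁻¹ ^ r * (NA⁻¹ ^ (1 / p * r))⁻¹ * NI⁻¹ ^ (r / q) * ∑ i, ∑ j, |∑ a, f i a * v j a| ^ r
      = (NA⁻¹ ^ (1 / p * r))⁻¹ * (NA⁻¹ ^ r * (NI⁻¹ ^ (r / q) *
          ∑ i, ∑ j, |∑ a, f i a * v j a| ^ r)) := by ring
    _ ≤ (NA⁻¹ ^ (1 / p * r))⁻¹ * (C ^ r * NA⁻¹ ^ (1 / p * r)) := by gcongr
    _ = C ^ r := by field_simp

theorem summing_opK {r s p q : ℝ} (hr : 1 ≤ r) {R : Type} [Fintype R]
    (h : p.HolderConjugate s) [Fact (1 ≤ ENNReal.ofReal p)] [Fact (1 ≤ ENNReal.ofReal q)]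
    (c : Cell A) (d : Cell R) (K : R → A → ℝ) :
    Summing r (opK c d h (ENNReal.ofReal q) K) := by
  refine summing_of_finite hr _ (fun a => c.co h a)
    (fun a => ‖d.st (ENNReal.ofReal q) (fun ρ => K ρ a)‖) (fun a => norm_nonneg _) ?_
  intro x
  rw [opK_apply]
  have h1 : (fun ρ => ∑ a, K ρ a * c.co h a x) = ∑ a, c.co h a x • (fun ρ => K ρ a) := by
    funext ρ
    simp [mul_comm]
  rw [h1, map_sum]
  refine (norm_sum_le _ _).trans ?_
  refine Finset.sum_le_sum fun a _ => ?_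
  rw [map_smul, norm_smul, Real.norm_eq_abs, mul_comm]

theorem isModulus_opK {R : Type} [Fintype R] {p q : Expo} {s : ℝ} (h : p.1.HolderConjugate s)
    (c : Cell A) (d : Cell R) (K K' : R → A → ℝ) (hK : ∀ ρ a, |K ρ a| = K' ρ a) :
    IsModulus (opK c d h (ENNReal.ofReal q.1) K : LL p →L[ℝ] LL q)
      (opK c d h (ENNReal.ofReal q.1) K') := by
  have hKK : K' = fun ρ a => |K ρ a| := by funext ρ a; exact (hK ρ a).symm
  have hzero : ∀ f : LL p, opK c d h (ENNReal.ofReal q.1) (fun (_ : R) (_ : A) => (0 : ℝ)) f = 0 := by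
    intro f
    rw [opK_apply]
    simp only [zero_mul, Finset.sum_const_zero]
    exact map_zero (d.st (ENNReal.ofReal q.1))
  have hneg : ∀ f : LL p, -(opK c d h (ENNReal.ofReal q.1) K f)
      = opK c d h (ENNReal.ofReal q.1) (fun ρ a => -K ρ a) f := by
    intro f
    rw [opK_apply, opK_apply, ← map_neg]
    congr 1
    funext ρ
    simp
  refine ⟨⟨opK c d h (ENNReal.ofReal q.1) K', 0, ?_, ?_, ?_⟩, ?_, ?_, ?_⟩
  · intro f hf
    have := opK_le_abs c d h (ENNReal.ofReal q.1) (K := fun _ _ => 0) (K' := K')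
      (fun ρ a => by rw [← hK]; exact abs_nonneg _) hf
    rw [hzero] at this
    exact this
  · intro f _
    exact le_rfl
  · rw [sub_zero]
  · intro f hf
    exact opK_le_abs c d h _ (fun ρ a => by rw [← hK]; exact le_abs_self _) hf
  · intro f hf
    rw [_root_.neg_apply, hneg]
    exact opK_le_abs c d h _ (fun ρ a => by rw [← hK]; exact neg_le_abs _) hf
  · intro N _ h1 h2 f hf
    rw [hKK]
    exact opK_abs_le c d h _ K N h1 (fun g hg => h2 g hg) hf

end ops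

theorem not_S {r s E Γ : ℝ} (hr : 2 < r) (hs2 : 2 < s) (hsr : s < r) (hΓ : 0 < Γ)
    (hg : Good r s E Γ 2) (p q : Expo) (hp : p.1.HolderConjugate s) (hqr : q.1 ≤ r)
    (hq : (2 : ℝ) ^ (r / q.1 - 1) * Γ < E) : ¬ S r p q := by
  classical
  rintro ⟨_, C0, hC0⟩
  have hr0 : 0 < r := by linarith
  have hq0 : 0 < q.1 := by linarith [q.2]
  set C1 : ℝ := max C0 1 with hC1
  have hC1p : 0 < C1 := lt_max_of_lt_right one_pos
  set w : ℝ := (2 : ℝ) ^ (r / q.1 - 1) with hw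
  have hw0 : 0 < w := by positivity
  have hkey : ∀ k : ℕ, (E / (w * Γ)) ^ k ≤ C1 ^ r * Bk r := by
    intro k
    obtain ⟨A, I, J, L, _, _, _, _, _, _, v, f, G, hf, hG, hW, hP, hc, hE, hΓ'⟩ :=
      hg.pow (by linarith) hsr.le k
    obtain ⟨c⟩ := exists_cell A
    obtain ⟨d⟩ := exists_cell (I × (A → Bool))
    set U : LL p →L[ℝ] LL q := opK c d hp (ENNReal.ofReal q.1) (Ks f) with hU
    set V : LL p →L[ℝ] LL q := opK c d hp (ENNReal.ofReal q.1) (fun ρ a => f ρ.1 a) with hV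
    have sU : Summing r U := summing_opK (by linarith) hp c d _
    have sV : Summing r V := summing_opK (by linarith) hp c d _
    have mU : IsModulus U V := isModulus_opK hp c d _ _ (fun ρ a => abs_Ks f hf ρ a)
    have mV : IsModulus V V := isModulus_opK hp c d _ _ (fun ρ a => abs_of_nonneg (hf _ _))
    have h1 := hC0 U V V V sU sV mU mV (fun f _ => le_rfl)
    obtain ⟨CU, hCU, hCUr⟩ := upper_bound hr q.2 hqr hp c d hG hP
    have hCU0 := hCU.1
    have h2 : piNorm r U ≤ CU := piNorm_le hCU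
    have hpU : 0 ≤ piNorm r U := Real.sInf_nonneg fun C hC => hC.1
    set NA : ℝ := (Fintype.card A : ℝ) with hNA
    have hNA0 : 0 < NA := by rw [hNA]; exact_mod_cast Fintype.card_pos
    have hNI : (Fintype.card I : ℝ) = 2 ^ k := by rw [hc]; push_cast; rfl
    rw [hNI, hΓ'] at hCUr
    set XV : ℝ := NA⁻¹ ^ (r / s) * (((2 : ℝ) ^ k)⁻¹) ^ (r / q.1) * E ^ k with hXV
    have hE0 : 0 < E := lt_trans (by positivity) hq
    have hXV0 : 0 < XV := by positivity
    have h3 : XV ^ (1 / r) ≤ piNorm r V := by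
      apply le_piNorm sV
      intro C hC
      have h4 := lower_bound hr q.2 hqr hp c d hW hC
      rw [hE, hNI] at h4
      have h5 := Real.rpow_le_rpow hXV0.le h4 (by positivity : 0 ≤ 1 / r)
      rwa [← Real.rpow_mul hC.1, mul_one_div_cancel hr0.ne', Real.rpow_one] at h5
    have h6 : XV ^ (1 / r) ≤ C1 * CU := by
      calc XV ^ (1 / r) ≤ piNorm r V := h3
        _ ≤ C0 * piNorm r U := h1
        _ ≤ C1 * piNorm r U := mul_le_mul_of_nonneg_right (le_max_left _ _) hpU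
        _ ≤ C1 * CU := mul_le_mul_of_nonneg_left h2 hC1p.le
    have h7 := Real.rpow_le_rpow (by positivity) h6 hr0.le
    rw [← Real.rpow_mul hXV0.le, one_div_mul_cancel hr0.ne', Real.rpow_one,
      Real.mul_rpow hC1p.le hCU0, hCUr] at h7
    have hwk : (((2 : ℝ) ^ k)⁻¹) ^ (r / q.1) = (2 ^ k)⁻¹ * (w ^ k)⁻¹ := by
      have e1 : ((2 : ℝ) ^ k)⁻¹ = (2 : ℝ) ^ (-(k : ℝ)) := by
        rw [Real.rpow_neg (by norm_num), Real.rpow_natCast]
      have e2 : (w ^ k)⁻¹ = (2 : ℝ) ^ (-((r / q.1 - 1) * k)) := by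
        rw [hw, Real.rpow_neg (by norm_num), Real.rpow_mul (by norm_num), Real.rpow_natCast]
      rw [e1, e2, ← Real.rpow_mul (by norm_num), ← Real.rpow_add (by norm_num)]
      congr 1
      ring
    rw [hXV, hwk] at h7
    have hn1 : 0 < NA⁻¹ ^ (r / s) := by positivity
    have hn2 : 0 < ((2 : ℝ) ^ k)⁻¹ := by positivity
    have h8 : (NA⁻¹ ^ (r / s) * ((2 : ℝ) ^ k)⁻¹) * ((w ^ k)⁻¹ * E ^ k) ≤
        (NA⁻¹ ^ (r / s) * ((2 : ℝ) ^ k)⁻¹) * (C1 ^ r * Bk r * Γ ^ k) := by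
      calc _ = NA⁻¹ ^ (r / s) * ((2 ^ k)⁻¹ * (w ^ k)⁻¹) * E ^ k := by ring
        _ ≤ _ := h7
        _ = _ := by ring
    have h9 := le_of_mul_le_mul_left h8 (by positivity)
    rw [div_pow, mul_pow, div_le_iff₀ (by positivity)]
    have h10 := mul_le_mul_of_nonneg_left h9 (by positivity : 0 ≤ w ^ k)
    calc E ^ k = w ^ k * ((w ^ k)⁻¹ * E ^ k) := by field_simp
      _ ≤ w ^ k * (C1 ^ r * Bk r * Γ ^ k) := h10
      _ = _ := by ring
  have hgt : 1 < E / (w * Γ) := by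
    rw [lt_div_iff₀ (by positivity)]; linarith
  obtain ⟨k, hk⟩ := pow_unbounded_of_one_lt (C1 ^ r * Bk r) hgt
  exact absurd (hkey k) (not_le.2 hk)

/-- For every `2 < r < ∞`: the statement `S(p,q)` fails for some `r' < p < 2 < q < r` (Q1),
and `S(p,r)` fails for some `1 ≤ p ≤ 2` (Q2). -/
theorem result : ∀ r : ℝ, 2 < r →
    (∃ p q : Expo, r / (r - 1) < p.1 ∧ p.1 < 2 ∧ 2 < q.1 ∧ q.1 < r ∧ ¬ S r p q) ∧
    (∃ p q : Expo, p.1 ≤ 2 ∧ q.1 = r ∧ ¬ S r p q) := by
  intro r hr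
  obtain ⟨s, E, Γ, hs2, hsr, hΓ, hΓE, hg⟩ := single hr
  have hs1 : 1 < s := by linarith
  set p0 : ℝ := s / (s - 1) with hp0
  have hconj : p0.HolderConjugate s := (Real.HolderConjugate.conjExponent hs1).symm
  have hp1 : 1 ≤ p0 := hconj.lt.le
  have hp2 : p0 < 2 := by
    rw [hp0, div_lt_iff₀ (by linarith)]; linarith
  have hpr : r / (r - 1) < p0 := by
    rw [hp0, div_lt_div_iff₀ (by linarith) (by linarith)]; linarith
  set p : Expo := ⟨p0, hp1⟩ with hp
  constructor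
  · have hlim : ∀ᶠ q : ℝ in nhdsWithin r (Set.Iio r), (2 : ℝ) ^ (r / q - 1) * Γ < E := by
      have hc : ContinuousAt (fun q : ℝ => (2 : ℝ) ^ (r / q - 1) * Γ) r := by
        have h1 : ContinuousAt (fun q : ℝ => r / q - 1) r :=
          (continuousAt_const.div continuousAt_id (by linarith : r ≠ 0)).sub continuousAt_const
        exact (ContinuousAt.rpow continuousAt_const h1 (Or.inl (by norm_num))).mul
          continuousAt_const
      have h2 := hc.tendsto.mono_left (nhdsWithin_le_nhds (s := Set.Iio r))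
      apply h2.eventually (gt_mem_nhds _)
      rw [div_self (by linarith : r ≠ 0)]
      simpa using hΓE
    have hlim2 : ∀ᶠ q : ℝ in nhdsWithin r (Set.Iio r), 2 < q :=
      (lt_mem_nhds hr).filter_mono nhdsWithin_le_nhds
    obtain ⟨q0, ⟨h1, h2⟩, h3⟩ := ((hlim.and hlim2).and self_mem_nhdsWithin).exists
    have h3' : q0 < r := h3
    refine ⟨p, ⟨q0, by linarith⟩, hpr, hp2, h2, h3', ?_⟩
    exact not_S hr hs2 hsr hΓ hg p ⟨q0, by linarith⟩ hconj h3'.le h1
  · refine ⟨p, ⟨r, by linarith⟩, hp2.le, rfl, ?_⟩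
    apply not_S hr hs2 hsr hΓ hg p ⟨r, by linarith⟩ hconj le_rfl
    change (2 : ℝ) ^ (r / r - 1) * Γ < E
    rw [div_self (by linarith : r ≠ 0)]
    simpa using hΓE

end

end Pool.Agent.Results.MP_b99895_an.NotLattice
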